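import Pool.Agent.Q226.FL2.Defs
import Pool.Agent.H679R2.M1.Defs

/-!
# Reductions computed by circuits on the literals of a graph with tagged edges: definitions

The input has a bit for each position `(e, k)`, where `e` is a pair of vertices and `k < T` is a tag,
which tells whether there is an edge `e` with the tag `k`.
-/

set_option autoImplicit false

namespace Pool.Agent.Q226.MWF

open Pool.Agent.H679R2.M1 Pool.Agent.H520R2.NM

/-- no two parallel edges: at most one tag for each pair of vertices -/
def NoParallelEdges {n T : ℕ} (x : Sym2 (Fin n) × Fin T → Bool) : Prop :=
  ∀ e k k', x (e, k) = true → x (e, k') = true → k = k'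

/-- the edge indicators of the graph, without the tags -/
def edges {n T : ℕ} (x : Sym2 (Fin n) × Fin T → Bool) : Sym2 (Fin n) → Bool :=
  fun e => decide (∃ k, x (e, k) = true)

/-- A truth-table reduction, computed by a circuit whose inputs are the bits of the positions,
`((e, k), true)`, and their negations, `((e, k), false)`, from a problem on graphs with vertex set
`Fin n` to the satisfiability problem for formulas in `Γ_{1,d}` over `v` variables. The circuit
produces, at the wires `out i c`, the bits of `q` formulas, and the answer is an arbitrary function
`ev` of the `q` answers to the questions whether these formulas are satisfiable. A many-one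
reduction is the case in which `q = 1` and `ev` is the identity. -/
structure LiteralReduction (n T v d q N : ℕ) where
  /-- the circuit -/
  C : Circuit ((Sym2 (Fin n) × Fin T) × Bool) N
  /-- the wire that carries the bit of the clause `c` in the `i`-th formula -/
  out : Fin q → Clause v d → Wire ((Sym2 (Fin n) × Fin T) × Bool) N
  /-- the evaluation of the `q` answers -/
  ev : (Fin q → Bool) → Bool

open Classical in
/-- The answer of the reduction if the values of the literals are `y`. -/
noncomputable def LiteralReduction.answer {n T v d q N : ℕ} (R : LiteralReduction n T v d q N)
    (y : (Sym2 (Fin n) × Fin T) × Bool → Bool) : Bool :=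
  R.ev fun i => decide (Sat fun c => (R.out i c).eval y (R.C.vals y))

end Pool.Agent.Q226.MWF
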