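import Pool.Agent.Q226.MWF.Defs
import Pool.Agent.Q226.FL2.Nm
import Pool.Agent.Q226.HLT.Main
import Pool.Agent.H679R2.M1.Main

/-! # Reductions from clique to short formulas with unreliable negations -/

set_option autoImplicit false

open Finset Filter

namespace Pool.Agent.Q226.MWF

open Pool.Agent.H679R2.M1 Pool.Agent.H520R2.NM Pool.Agent.Q226.FL2 Pool.Agent.Q226.FLT

lemma noParallel_host {n T : ℕ} (t : Sym2 (Fin n) → Fin T) (M : Sym2 (Fin n) → Bool) :
    NoParallelEdges (host t M) := by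
  intro e k k' h h'
  unfold host at h h'
  simp only [Bool.and_eq_true, decide_eq_true_eq] at h h'
  rw [h.2, h'.2]

lemma edges_host {n T : ℕ} (t : Sym2 (Fin n) → Fin T) (M : Sym2 (Fin n) → Bool) :
    edges (host t M) = M := by
  funext e
  unfold edges host
  by_cases h : M e = true
  · simp [h]
  · have h' : M e = false := by simpa using h
    simp [h']

/-- substitution in a reduction -/
def rsubst {n T v d q N : ℕ} (σ : (Sym2 (Fin n) × Fin T) × Bool → Sym2 (Fin n) ⊕ Bool)
    (R : LiteralReduction n T v d q N) : Reduction n v d q N where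
  C := csub σ R.C
  out i c := wsub σ (R.out i c)
  ev := R.ev

lemma rsubst_answer {n T v d q N : ℕ}
    (σ : (Sym2 (Fin n) × Fin T) × Bool → Sym2 (Fin n) ⊕ Bool)
    (R : LiteralReduction n T v d q N) (x : Sym2 (Fin n) → Bool) :
    (rsubst σ R).answer x = R.answer (sval σ x) := by
  have h : ∀ i, (fun c => (wsub σ (R.out i c)).eval x ((csub σ R.C).vals x)) =
      fun c => (R.out i c).eval (sval σ x) (R.C.vals (sval σ x)) := by
    intro i
    funext c
    rw [wsub_eval, csub_vals]
  unfold Reduction.answer LiteralReduction.answer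
  refine congrArg R.ev (funext fun i => ?_)
  exact congrArg (fun φ => @decide (Sat φ) (Classical.propDecidable _)) (h i)

open Classical in
theorem main (f g s : ℕ → ℕ) (hs : ∀ k, k ≤ s k) (c d : ℕ) (γ : ℝ) (hγ0 : 0 ≤ γ)
    (hγ : γ < 2) :
    ∀ᶠ k : ℕ in atTop, ∀ᶠ n : ℕ in atTop, ∀ D T : ℕ, 1 ≤ D → 800 * D * n ^ 2 ≤ T →
      ∀ (Ω : Type) [Fintype Ω] [Nonempty Ω] (v q N : Ω → ℕ)
        (R : ∀ r, LiteralReduction n T (v r) d (q r) (N r)),
        (∀ r, v r ≤ g k * (Nat.log 2 (f k * n ^ c) + 1)) →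
        (∀ r, (((q r + 1) * ((R r).C.fanins.map (· + 1)).prod : ℕ) : ℝ) ≤ (n : ℝ) ^ γ) →
        (∀ r, (R r).C.size + (R r).C.fanins.sum ≤ f k * n ^ c) →
        ∃ x : Sym2 (Fin n) × Fin T → Bool, NoParallelEdges x ∧ Promise (s k) k (edges x) ∧
          faultyProbability (fun r y => Right (s k) k (edges x) ((R r).answer y)) D x < 2 / 3 := by
  filter_upwards [no_reduction f g s hs c d γ hγ0 hγ] with k hk
  obtain ⟨α, hα, h1⟩ := hk
  filter_upwards [h1, HLT.small_rpow hα, eventually_ge_atTop 1] with n hn hsmall hn1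
  obtain ⟨-, h2⟩ := hn
  intro D T hD hT Ω _ _ v q N R hv hq hsz
  by_contra hcon
  push Not at hcon
  have : NeZero D := ⟨by omega⟩
  have hT0 : 0 < T := by
    have : 0 < 800 * D * n ^ 2 := by positivity
    omega
  have : Nonempty (Fin T) := ⟨⟨0, hT0⟩⟩
  have : Nonempty (Fin D) := ⟨0⟩
  have hcard : Fintype.card (Sym2 (Fin n)) ≤ n ^ 2 := by
    rw [Sym2.card, Fintype.card_fin, Nat.choose_two_right]
    apply Nat.div_le_of_le_mul
    have h1 : n + 1 - 1 = n := by omega
    rw [h1]
    nlinarith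
  have hT' : 800 * D * Fintype.card (Sym2 (Fin n)) ≤ T :=
    (Nat.mul_le_mul_left _ hcard).trans hT
  have hpos : (0 : ℝ) < Fintype.card (Choices Ω (Sym2 (Fin n)) T D) := by
    exact_mod_cast Fintype.card_pos
  obtain ⟨M, hPM, hM⟩ := h2 (Choices Ω (Sym2 (Fin n)) T D)
    (fun _ => 1 / (Fintype.card (Choices Ω (Sym2 (Fin n)) T D) : ℝ))
    (fun _ => by positivity) (by
      rw [sum_const, card_univ, nsmul_eq_mul, mul_one_div, div_self hpos.ne'])
    (fun o => v o.1) (fun o => q o.1) (fun o => N o.1)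
    (fun o => rsubst (rsub o.2.1 o.2.2) (R o.1)) (fun o => hv o.1)
    (fun o => by
      show (((q o.1 + 1) * ((csub (rsub o.2.1 o.2.2) (R o.1).C).fanins.map (· + 1)).prod : ℕ) : ℝ)
        ≤ _
      rw [csub_fanins]
      exact hq o.1)
    (fun o => by
      show (csub (rsub o.2.1 o.2.2) (R o.1).C).size +
        (csub (rsub o.2.1 o.2.2) (R o.1).C).fanins.sum ≤ _
      rw [csub_size, csub_fanins]
      exact hsz o.1)
  have h3 := transfer (η := 1 / 20) hT0 (by norm_num) (by norm_num) (eta_ok hT')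
    (fun r y => Right (s k) k M ((R r).answer y)) M (A := 2 / 3)
    (fun t => by
      have h4 := hcon (host t M) (noParallel_host t M)
      rw [edges_host] at h4
      exact h4 hPM)
  have h4 := hM (univ.filter fun o : Choices Ω (Sym2 (Fin n)) T D =>
    Right (s k) k M ((R o.1).answer (rl o.2.1 o.2.2 M))) (by
      intro o ho
      have h5 := (mem_filter.mp ho).2
      rw [rsubst_answer, sval_rsub]
      exact h5)
  rw [sum_const, nsmul_eq_mul] at h4
  have h6 : ((2 / 3 : ℝ) - 1 / 20) ≤ ((univ.filter (fun o : Choices Ω (Sym2 (Fin n)) T D =>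
      Right (s k) k M ((R o.1).answer (rl o.2.1 o.2.2 M)))).card : ℝ) *
      (1 / (Fintype.card (Choices Ω (Sym2 (Fin n)) T D) : ℝ)) := by
    rw [mul_one_div, le_div_iff₀ hpos]
    exact h3
  linarith

end Pool.Agent.Q226.MWF
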